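import Pool.Agent.H70.Mono.Defs2

set_option autoImplicit false

/-!
# Project MONO, module C: the series

The statements `Z_stab_of`, `P_stab_of`, `elim_identity_of`, `Z_mem_of` take the strata formula
(`cl_Y_stab` of module B2) as a hypothesis.
-/

namespace Pool.Agent.H70.Mono

open MvPolynomial

section C

variable {k : Type} [Field k] [Algebra k ℂ] {σ : Type} [Finite σ]

/-- the strata formula (module B2) -/
def StrataFormula (k : Type) [Field k] [Algebra k ℂ] {σ : Type} [Finite σ]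
    (f : MvPolynomial σ k) : Prop :=
  ∀ (N : ℕ) (c : k), cl k (Y k N c (stab k f)) = L k ^ N * cl k (Y k N c f) +
      ∑ i ∈ Finset.range N, (L k - 1) * L k ^ (N - 1) *
        (cl k (Y k i 0 f) * L k ^ (Nat.card σ * (N - i)))

theorem algebraMap_L : algebraMap (K0 k) (M k) (L k) = ↑(Lu k) := by
  unfold Lu
  exact ((IsLocalization.Away.algebraMap_isUnit (S := M k) (L k)).unit_spec).symm

/-- abstract version of the coefficient computation -/
theorem abs_coeff {R : Type*} [CommRing R] (u : Rˣ) (m N : ℕ) (y : R) (p : ℕ → R) :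
    ((u : R) ^ N * y + ∑ i ∈ Finset.range N, ((u : R) - 1) * (u : R) ^ (N - 1) *
        (p i * (u : R) ^ (m * (N - i)))) * ↑(u ^ (-(((m + 2) * (N - 1) : ℕ) : ℤ))) =
      (u : R) ^ N * y * ↑(u ^ (-(((m + 2) * (N - 1) : ℕ) : ℤ))) +
      ((u : R) - 1) * (u : R) ^ m * (↑(u ^ (-((N - 1 : ℕ) : ℤ))) *
        ∑ i ∈ Finset.range N, p i * ↑(u ^ (-((m * i : ℕ) : ℤ)))) := by
  rw [add_mul, Finset.sum_mul, Finset.mul_sum, Finset.mul_sum]
  congr 1
  refine Finset.sum_congr rfl fun i hi => ?_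
  rw [Finset.mem_range] at hi
  have h1 : (u : R) ^ (N - 1) = ↑(u ^ ((N - 1 : ℕ) : ℤ)) := by rw [zpow_natCast, Units.val_pow_eq_pow_val]
  have h2 : (u : R) ^ (m * (N - i)) = ↑(u ^ ((m * (N - i) : ℕ) : ℤ)) := by
    rw [zpow_natCast, Units.val_pow_eq_pow_val]
  have h3 : (u : R) ^ m = ↑(u ^ ((m : ℕ) : ℤ)) := by rw [zpow_natCast, Units.val_pow_eq_pow_val]
  rw [h1, h2, h3]
  have h4 : (↑(u ^ ((N - 1 : ℕ) : ℤ)) : R) * ↑(u ^ ((m * (N - i) : ℕ) : ℤ)) *
      ↑(u ^ (-(((m + 2) * (N - 1) : ℕ) : ℤ))) =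
      ↑(u ^ ((m : ℕ) : ℤ)) * ↑(u ^ (-((N - 1 : ℕ) : ℤ))) * ↑(u ^ (-((m * i : ℕ) : ℤ))) := by
    rw [← Units.val_mul, ← Units.val_mul, ← Units.val_mul, ← Units.val_mul, ← zpow_add, ← zpow_add,
      ← zpow_add, ← zpow_add]
    congr 2
    have e1 : ((N - 1 : ℕ) : ℤ) = (N : ℤ) - 1 := by omega
    have e2 : ((N - i : ℕ) : ℤ) = (N : ℤ) - i := by omega
    push_cast [e1, e2]
    ring
  linear_combination ((u : R) - 1) * p i * h4

/-- the sum series -/
noncomputable def Gser (f : MvPolynomial σ k) : PowerSeries (M k) :=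
  PowerSeries.mk fun d => (↑(Lu k ^ (-((d : ℕ) : ℤ))) : M k) *
    ∑ i ∈ Finset.range (d + 1), mot k (Y k i 0 f) * ↑(Lu k ^ (-((Nat.card σ * i : ℕ) : ℤ)))

theorem den_mul_coeff_zero (a : ℤ) (g : PowerSeries (M k)) :
    PowerSeries.coeff 0 (den k (a, 1) * g) = PowerSeries.coeff 0 g := by
  simp [den, sub_mul, mul_assoc]

theorem den_mul_coeff_succ (a : ℤ) (g : PowerSeries (M k)) (d : ℕ) :
    PowerSeries.coeff (d + 1) (den k (a, 1) * g) =
      PowerSeries.coeff (d + 1) g - ↑(Lu k ^ a) * PowerSeries.coeff d g := by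
  simp only [den, sub_mul, one_mul, map_sub, pow_one, mul_assoc]
  rw [PowerSeries.coeff_C_mul, PowerSeries.coeff_succ_X_mul]

theorem inv_mul_zpow (d : ℕ) : (↑(Lu k ^ (-1 : ℤ)) : M k) * ↑(Lu k ^ (-((d : ℕ) : ℤ))) =
    ↑(Lu k ^ (-((d + 1 : ℕ) : ℤ))) := by
  rw [← Units.val_mul, ← zpow_add]
  congr 2
  push_cast
  ring

theorem den_mul_Gser (f : MvPolynomial σ k) : den k (-1, 1) * Gser f = dn k (Pmot k f) := by
  ext d
  rcases d with _ | d
  · rw [den_mul_coeff_zero, dn, PowerSeries.coeff_rescale]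
    simp [Gser, Pmot]
  · rw [den_mul_coeff_succ, dn, PowerSeries.coeff_rescale]
    simp only [Gser, Pmot, PowerSeries.coeff_mk]
    rw [← mul_assoc, inv_mul_zpow, ← mul_sub, Finset.sum_range_succ _ (d + 1), add_sub_cancel_left]
    congr 1

theorem card_sum_bool : Nat.card (σ ⊕ Bool) = Nat.card σ + 2 := by
  rw [Nat.card_sum, Nat.card_eq_fintype_card (α := Bool), Fintype.card_bool]

theorem mot_stab {f : MvPolynomial σ k} (H : StrataFormula k f) (N : ℕ) (c : k) :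
    mot k (Y k N c (stab k f)) * ↑(Lu k ^ (-((Nat.card (σ ⊕ Bool) * (N - 1) : ℕ) : ℤ))) =
      (Lu k : M k) ^ N * mot k (Y k N c f) *
        ↑(Lu k ^ (-(((Nat.card σ + 2) * (N - 1) : ℕ) : ℤ))) +
      ((Lu k : M k) - 1) * (Lu k : M k) ^ (Nat.card σ) * (↑(Lu k ^ (-((N - 1 : ℕ) : ℤ))) *
        ∑ i ∈ Finset.range N, mot k (Y k i 0 f) * ↑(Lu k ^ (-((Nat.card σ * i : ℕ) : ℤ)))) := by
  rw [← abs_coeff, card_sum_bool]
  congr 1
  unfold mot
  rw [H N c, map_add, map_mul, map_pow, map_sum, algebraMap_L]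
  congr 1
  refine Finset.sum_congr rfl fun i _ => ?_
  rw [map_mul, map_mul, map_mul, map_pow, map_pow, map_sub, map_one, algebraMap_L]

theorem Z_stab_eq {f : MvPolynomial σ k} (H : StrataFormula k f) :
    Zmot k (stab k f) = PowerSeries.C (↑(Lu k) : M k) * dn k (Zmot k f) +
      PowerSeries.C ((↑(Lu k) - 1) * ↑(Lu k) ^ Nat.card σ : M k) * Gser f := by
  ext d
  have h := mot_stab H (d + 1) 1
  rw [map_add, PowerSeries.coeff_C_mul, PowerSeries.coeff_C_mul, dn, PowerSeries.coeff_rescale]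
  simp only [Zmot, Gser, PowerSeries.coeff_mk]
  rw [Nat.add_sub_cancel] at h
  rw [h]
  congr 1
  have h1 : (Lu k : M k) ^ (d + 1) * ↑(Lu k ^ (-(((Nat.card σ + 2) * d : ℕ) : ℤ))) =
      ↑(Lu k) * (↑(Lu k)⁻¹ ^ d * ↑(Lu k ^ (-((Nat.card σ * d : ℕ) : ℤ)))) := by
    rw [← Units.val_pow_eq_pow_val, ← Units.val_pow_eq_pow_val, ← Units.val_mul, ← Units.val_mul,
      ← Units.val_mul, ← zpow_natCast, ← zpow_natCast, inv_zpow', ← zpow_add, ← zpow_add,
      ← zpow_one_add]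
    congr 2
    push_cast
    ring
  linear_combination mot k (Y k (d + 1) 1 f) * h1

theorem P_stab_eq {f : MvPolynomial σ k} (H : StrataFormula k f) :
    Pmot k (stab k f) = dn k (Pmot k f) +
      PowerSeries.C ((↑(Lu k) - 1) * ↑(Lu k ^ (-2 : ℤ)) : M k) * (PowerSeries.X * Gser f) := by
  ext d
  rw [map_add, PowerSeries.coeff_C_mul, dn, PowerSeries.coeff_rescale]
  rcases d with _ | d
  · have h := mot_stab H 0 0
    simp only [Pmot, PowerSeries.coeff_mk]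
    simp only [Nat.zero_sub, mul_zero, Finset.range_zero, Finset.sum_empty, Nat.cast_zero, neg_zero,
      zpow_zero, Units.val_one, mul_one, pow_zero, one_mul, add_zero] at h ⊢
    rw [h]
    simp
  · have h := mot_stab H (d + 1) 0
    rw [Nat.add_sub_cancel] at h
    rw [PowerSeries.coeff_succ_X_mul]
    simp only [Pmot, Gser, PowerSeries.coeff_mk]
    have h0 : (↑(Lu k ^ (-((Nat.card (σ ⊕ Bool) * (d + 1) : ℕ) : ℤ))) : M k) =
        ↑(Lu k ^ (-((Nat.card (σ ⊕ Bool) * d : ℕ) : ℤ))) *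
          ↑(Lu k ^ (-((Nat.card σ + 2 : ℕ) : ℤ))) := by
      rw [card_sum_bool, ← Units.val_mul, ← zpow_add]
      congr 2
      push_cast
      ring
    rw [h0, ← mul_assoc, h, add_mul]
    have h1 : (Lu k : M k) ^ (d + 1) * ↑(Lu k ^ (-(((Nat.card σ + 2) * d : ℕ) : ℤ))) *
          ↑(Lu k ^ (-((Nat.card σ + 2 : ℕ) : ℤ))) =
        (↑(Lu k)⁻¹ ^ (d + 1) * ↑(Lu k ^ (-((Nat.card σ * (d + 1) : ℕ) : ℤ)))) := by
      rw [← Units.val_pow_eq_pow_val, ← Units.val_pow_eq_pow_val, ← Units.val_mul, ← Units.val_mul,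
        ← Units.val_mul, ← zpow_natCast, ← zpow_natCast, inv_zpow', ← zpow_add, ← zpow_add,
        ← zpow_add]
      congr 2
      push_cast
      ring
    have h2 : (Lu k : M k) ^ (Nat.card σ) * ↑(Lu k ^ (-((Nat.card σ + 2 : ℕ) : ℤ))) =
        ↑(Lu k ^ (-2 : ℤ)) := by
      rw [← Units.val_pow_eq_pow_val, ← Units.val_mul, ← zpow_natCast, ← zpow_add]
      congr 2
      push_cast
      ring
    linear_combination mot k (Y k (d + 1) 0 f) * h1 + ((Lu k : M k) - 1) *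
      (↑(Lu k ^ (-((d : ℕ) : ℤ))) *
        ∑ i ∈ Finset.range (d + 1), mot k (Y k i 0 f) *
          ↑(Lu k ^ (-((Nat.card σ * i : ℕ) : ℤ)))) * h2

/-- C1 -/
theorem Z_stab_of {f : MvPolynomial σ k} (H : StrataFormula k f) :
    den k (-1, 1) * Zmot k (stab k f) =
      den k (-1, 1) * (PowerSeries.C (↑(Lu k) : M k) * dn k (Zmot k f)) +
        PowerSeries.C ((↑(Lu k) - 1) * ↑(Lu k) ^ Nat.card σ : M k) * dn k (Pmot k f) := by
  rw [Z_stab_eq H, mul_add, ← den_mul_Gser f]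
  ring

/-- C2 -/
theorem P_stab_of {f : MvPolynomial σ k} (H : StrataFormula k f) :
    den k (-1, 1) * Pmot k (stab k f) = dn k (Pmot k f) * den k (-2, 1) := by
  rw [P_stab_eq H, mul_add]
  have h1 : den k (-1, 1) * (PowerSeries.C ((↑(Lu k) - 1) * ↑(Lu k ^ (-2 : ℤ)) : M k) *
      (PowerSeries.X * Gser f)) = PowerSeries.C ((↑(Lu k) - 1) * ↑(Lu k ^ (-2 : ℤ)) : M k) *
      (PowerSeries.X * dn k (Pmot k f)) := by
    rw [← den_mul_Gser f]; ring
  rw [h1]
  have h2 : ((Lu k : M k) - 1) * ↑(Lu k ^ (-2 : ℤ)) = ↑(Lu k ^ (-1 : ℤ)) - ↑(Lu k ^ (-2 : ℤ)) := by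
    rw [sub_mul, one_mul, ← Units.val_mul, ← zpow_one_add]
    norm_num
  rw [h2]
  simp only [den, map_sub, pow_one]
  ring


/-! ### elimination -/

theorem up_dn (g : PowerSeries (M k)) : up k (dn k g) = g := by
  ext d
  rw [up, dn, PowerSeries.coeff_rescale, PowerSeries.coeff_rescale, ← mul_assoc, ← mul_pow,
    Units.mul_inv, one_pow, one_mul]

theorem up_C (a : M k) : up k (PowerSeries.C a) = PowerSeries.C a := by
  ext d
  rw [up, PowerSeries.coeff_rescale, PowerSeries.coeff_C]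
  split_ifs with h
  · rw [h, pow_zero, one_mul]
  · rw [mul_zero]

theorem up_X : up k PowerSeries.X = PowerSeries.C (↑(Lu k) : M k) * PowerSeries.X := by
  rw [up, PowerSeries.rescale_X]

theorem up_den (a : ℤ) (b : ℕ) : up k (den k (a, b)) = den k (a + b, b) := by
  simp only [den, map_sub, map_one, map_mul, map_pow, up_C, up_X, mul_pow, ← mul_assoc]
  rw [← map_pow, ← map_mul, ← Units.val_pow_eq_pow_val, ← Units.val_mul, ← zpow_natCast,
    ← zpow_add]

theorem den_unit (a : ℤ) (b : ℕ) (hb : 0 < b) : IsUnit (den k (a, b)) := by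
  rw [PowerSeries.isUnit_iff_constantCoeff]
  simp [den, hb.ne']

theorem abs_elim {R : Type*} [CommRing R] (V Q D A B P PF z l li : R) (m : ℕ)
    (h1 : V * A = V * (l * z) + (l - 1) * l ^ m * P)
    (h2 : D * B = D * (l * A) + (l - 1) * l ^ (m + 2) * PF) (h3 : V * PF = P * Q)
    (hm : l * li = 1) :
    V * (Q * z) = V * (Q * (li * A) - li * D * (li ^ 2 * B - li * A)) := by
  linear_combination (-(Q * li)) * h1 + V * li ^ 3 * h2 + (l - 1) * l ^ m * li * h3 +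
    (-(V * Q * z) + V * D * A * li ^ 2 + (l - 1) * l ^ m * li * V * PF * (l * li + 1)) * hm

/-- C3 -/
theorem elim_identity_of {f : MvPolynomial σ k} (H : StrataFormula k f)
    (H' : StrataFormula k (stab k f)) :
    den k (-1, 1) * Zmot k f =
      den k (-1, 1) * (PowerSeries.C (↑(Lu k)⁻¹ : M k) * up k (Zmot k (stab k f))) -
        PowerSeries.C (↑(Lu k)⁻¹ : M k) * den k (1, 1) *
          (PowerSeries.C (↑(Lu k ^ (-2 : ℤ)) : M k) * up k (up k (Zmot k (stab k (stab k f)))) -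
            PowerSeries.C (↑(Lu k)⁻¹ : M k) * up k (Zmot k (stab k f))) := by
  have h1 := congrArg (up k) (Z_stab_of H)
  have h2 := congrArg (up k) (congrArg (up k) (Z_stab_of H'))
  have h3 := congrArg (up k) (P_stab_of H)
  simp only [map_mul, map_add, up_dn, up_C, up_den] at h1 h2 h3
  norm_num at h1 h2 h3
  set V1 := den k (0, 1) with hV1
  have hu : IsUnit V1 := den_unit 0 1 one_pos
  apply hu.mul_left_cancel
  set ℓ : PowerSeries (M k) := PowerSeries.C (↑(Lu k) : M k) with hℓ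
  set ℓi : PowerSeries (M k) := PowerSeries.C (↑(Lu k)⁻¹ : M k) with hℓi
  have hm : ℓ * ℓi = 1 := by
    rw [hℓ, hℓi, ← map_mul, Units.mul_inv, map_one]
  have e2 : PowerSeries.C (↑(Lu k ^ (-2 : ℤ)) : M k) = ℓi ^ 2 := by
    rw [hℓi, ← map_pow, ← Units.val_pow_eq_pow_val, zpow_neg, inv_pow]
    norm_cast
  rw [e2]
  exact abs_elim _ _ _ _ _ _ _ _ _ _ _ h1 h2 h3 hm

/-! ### the algebra `RS` -/

theorem RS_mono {S S' : Set (ℤ × ℕ)} (h : S ⊆ S') : RS k S ≤ RS k S' := by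
  apply Algebra.adjoin_mono
  apply Set.union_subset_union_right
  rintro g ⟨p, hp, hg⟩
  exact ⟨p, h hp, hg⟩

theorem X_mem_RS (S : Set (ℤ × ℕ)) : (PowerSeries.X : PowerSeries (M k)) ∈ RS k S :=
  Algebra.subset_adjoin (Or.inl rfl)

theorem C_mem_RS (S : Set (ℤ × ℕ)) (a : M k) : PowerSeries.C a ∈ RS k S :=
  (RS k S).algebraMap_mem a

theorem den_mem_RS (S : Set (ℤ × ℕ)) (p : ℤ × ℕ) : den k p ∈ RS k S := by
  unfold den
  exact sub_mem (one_mem _) (mul_mem (C_mem_RS S _) (pow_mem (X_mem_RS S) _))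

/-- C4 -/
theorem up_mem {S : Set (ℤ × ℕ)} {h : PowerSeries (M k)} (hh : h ∈ RS k S) :
    up k h ∈ RS k ((fun p : ℤ × ℕ => (p.1 + p.2, p.2)) '' S) := by
  unfold RS at hh
  induction hh using Algebra.adjoin_induction with
  | mem x hx =>
    rcases hx with hx | ⟨p, hp, hx⟩
    · rw [Set.mem_singleton_iff] at hx
      rw [hx, up_X]
      exact mul_mem (C_mem_RS _ _) (X_mem_RS _)
    · refine Algebra.subset_adjoin (Or.inr ⟨(p.1 + p.2, p.2), ⟨p, hp, rfl⟩, ?_⟩)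
      rw [← up_den, ← map_mul, Prod.mk.eta, hx, map_one]
  | algebraMap r =>
    have : algebraMap (M k) (PowerSeries (M k)) r = PowerSeries.C r := rfl
    rw [this, up_C]
    exact C_mem_RS _ _
  | add x y _ _ hx hy => rw [map_add]; exact add_mem hx hy
  | mul x y _ _ hx hy => rw [map_mul]; exact mul_mem hx hy

/-- C5 -/
theorem Z_mem_of {f : MvPolynomial σ k} (H : StrataFormula k f)
    (H' : StrataFormula k (stab k f)) (S1 S2 : Set (ℤ × ℕ)) (h1 : Zmot k (stab k f) ∈ RS k S1)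
    (h2 : Zmot k (stab k (stab k f)) ∈ RS k S2) :
    Zmot k f ∈ RS k ({(-1, 1)} ∪ (fun p : ℤ × ℕ => (p.1 + p.2, p.2)) '' S1 ∪
      (fun p : ℤ × ℕ => (p.1 + 2 * p.2, p.2)) '' S2) := by
  set S : Set (ℤ × ℕ) := {(-1, 1)} ∪ (fun p : ℤ × ℕ => (p.1 + p.2, p.2)) '' S1 ∪
      (fun p : ℤ × ℕ => (p.1 + 2 * p.2, p.2)) '' S2 with hS
  obtain ⟨g, hg⟩ := (den_unit (k := k) (-1) 1 one_pos).exists_left_inv
  have hgm : g ∈ RS k S := Algebra.subset_adjoin (Or.inr ⟨(-1, 1), Or.inl (Or.inl rfl), hg⟩)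
  have hA : up k (Zmot k (stab k f)) ∈ RS k S :=
    RS_mono (fun p hp => Or.inl (Or.inr hp)) (up_mem h1)
  have hB : up k (up k (Zmot k (stab k (stab k f)))) ∈ RS k S := by
    refine RS_mono ?_ (up_mem (up_mem h2))
    rintro _ ⟨_, ⟨p, hp, rfl⟩, rfl⟩
    refine Or.inr ⟨p, hp, ?_⟩
    simp only [Prod.mk.injEq, and_true]
    ring
  have hz : Zmot k f = g * (den k (-1, 1) * Zmot k f) := by rw [← mul_assoc, hg, one_mul]
  rw [hz, elim_identity_of H H']
  refine mul_mem hgm (sub_mem (mul_mem (den_mem_RS _ _) (mul_mem (C_mem_RS _ _) hA))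
    (mul_mem (mul_mem (C_mem_RS _ _) (den_mem_RS _ _)) (sub_mem (mul_mem (C_mem_RS _ _) hB)
      (mul_mem (C_mem_RS _ _) hA))))

end C

end Pool.Agent.H70.Mono
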